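import Pool.Agent.Helper54.FP.Inst

/-!
# FP-16: the embedding of the complement ring into `L((t))`

`w ↦ t^a (1 + y t^2)^{-1}` defines an embedding of `k[w]⟦t⟧[1/t,1/w]` into `L((t))` when `y` is
transcendental over `k`, and it is fixed by every endomorphism of `L` fixing `k` and `y`.
-/

set_option autoImplicit false
set_option linter.unusedVariables false

namespace Pool.Agent.Helper54.FP

/-- two ring homomorphisms out of a power series ring with values in a power series ring which send
`X` to `X` and agree on the constants are equal -/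
theorem homE2_hom_ext {A B : Type} [CommRing A] [CommRing B]
    (f g : PowerSeries A →+* PowerSeries B) (hf : f PowerSeries.X = PowerSeries.X)
    (hg : g PowerSeries.X = PowerSeries.X)
    (h : ∀ a : A, f (PowerSeries.C a) = g (PowerSeries.C a)) : f = g := by
  have hcoe : ∀ q : Polynomial A, f (q : PowerSeries A) = g (q : PowerSeries A) := by
    intro q
    induction q using Polynomial.induction_on' with
    | add p q hp hq =>
      rw [Polynomial.coe_add, map_add, map_add, hp, hq]
    | monomial n a =>
      rw [← Polynomial.C_mul_X_pow_eq_monomial, Polynomial.coe_mul, Polynomial.coe_pow,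
        Polynomial.coe_C, Polynomial.coe_X, map_mul, map_mul, map_pow, map_pow, hf, hg, h]
  ext F n
  have hF : F - (PowerSeries.trunc (n + 1) F : PowerSeries A) ∈
      Ideal.span {(PowerSeries.X : PowerSeries A) ^ (n + 1)} := by
    rw [Ideal.mem_span_singleton, PowerSeries.X_pow_dvd_iff]
    intro m hm
    rw [map_sub, Polynomial.coeff_coe, PowerSeries.coeff_trunc, if_pos hm, sub_self]
  rw [Ideal.mem_span_singleton] at hF
  obtain ⟨G, hG⟩ := hF
  have e1 : F = (PowerSeries.trunc (n + 1) F : PowerSeries A) + PowerSeries.X ^ (n + 1) * G := by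
    rw [← hG]; ring
  have e2 : ∀ (f : PowerSeries A →+* PowerSeries B), f PowerSeries.X = PowerSeries.X →
      PowerSeries.coeff n (f F) =
        PowerSeries.coeff n (f (PowerSeries.trunc (n + 1) F : PowerSeries A)) := by
    intro f hf
    conv_lhs => rw [e1]
    rw [map_add, map_add, map_mul, map_pow, hf, PowerSeries.coeff_X_pow_mul', if_neg (by omega),
      add_zero]
  rw [e2 f hf, e2 g hg, hcoe]

section
variable {k : Type} [Field k]

/-- `1 + Y t^2` is a unit of `k[Y]⟦t⟧` -/
theorem homE2_isUnit :
    IsUnit ((1 : Pk k) + PowerSeries.C (Polynomial.X : Polynomial k) * PowerSeries.X ^ 2) := by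
  have h : IsUnit (PowerSeries.constantCoeff (R := Polynomial k)
      ((1 : Pk k) + PowerSeries.C (Polynomial.X : Polynomial k) * PowerSeries.X ^ 2)) := by
    simp
  exact PowerSeries.isUnit_iff_constantCoeff.mpr h

/-- `t^a (1 + Y t^2)^{-1}` -/
noncomputable def homE2_v (k : Type) [Field k] (a : ℕ) : Pk k :=
  (PowerSeries.X : Pk k) ^ a * (((homE2_isUnit (k := k)).unit⁻¹ : (Pk k)ˣ) : Pk k)

theorem homE2_v_mul (a : ℕ) :
    homE2_v k a * (1 + PowerSeries.C Polynomial.X * PowerSeries.X ^ 2) = PowerSeries.X ^ a := by
  rw [homE2_v, mul_assoc, IsUnit.val_inv_mul, mul_one]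

/-- evaluation at `Y = 0` -/
noncomputable def homE2_pi (k : Type) [Field k] : Pk k →+* PowerSeries k :=
  PowerSeries.map (Polynomial.evalRingHom (0 : k))

theorem homE2_pi_v (a : ℕ) : homE2_pi k (homE2_v k a) = PowerSeries.X ^ a := by
  have h := congrArg (homE2_pi k) (homE2_v_mul (k := k) a)
  simpa [homE2_pi] using h

/-- the substitution `w ↦ f` -/
noncomputable def homE2_sub (k : Type) [Field k] (f : Pk k) : Pk k →+* Pk k :=
  ext (Polynomial.eval₂RingHom ((PowerSeries.C).comp Polynomial.C) f)

theorem homE2_sub_X (f : Pk k) : homE2_sub k f PowerSeries.X = PowerSeries.X := ext_X _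

theorem homE2_sub_CC (f : Pk k) (c : k) :
    homE2_sub k f (PowerSeries.C (Polynomial.C c)) = PowerSeries.C (Polynomial.C c) := by
  rw [homE2_sub, ext_C]
  simp

theorem homE2_sub_CX (f : Pk k) :
    homE2_sub k f (PowerSeries.C Polynomial.X) = f := by
  rw [homE2_sub, ext_C]
  simp

/-- ring homomorphisms out of `Pk` -/
theorem homE2_Pk_ext {B : Type} [CommRing B]
    (f g : Pk k →+* PowerSeries B) (hf : f PowerSeries.X = PowerSeries.X)
    (hg : g PowerSeries.X = PowerSeries.X)
    (h : ∀ c : k, f (PowerSeries.C (Polynomial.C c)) = g (PowerSeries.C (Polynomial.C c)))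
    (h' : f (PowerSeries.C Polynomial.X) = g (PowerSeries.C Polynomial.X)) : f = g := by
  apply homE2_hom_ext f g hf hg
  intro q
  have : f.comp (PowerSeries.C) = g.comp (PowerSeries.C) := by
    apply Polynomial.ringHom_ext
    · intro c
      exact h c
    · exact h'
  exact congrArg (fun F : Polynomial k →+* PowerSeries B => F q) this

/-- divisibility by `w` -/
theorem homE2_dvd (F : Pk k) (h : homE2_pi k F = 0) :
    ∃ F' : Pk k, F = PowerSeries.C Polynomial.X * F' := by
  refine ⟨PowerSeries.mk fun n => (PowerSeries.coeff n F).divX, ?_⟩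
  apply PowerSeries.ext
  intro n
  rw [PowerSeries.coeff_C_mul, PowerSeries.coeff_mk]
  have h1 := congrArg (PowerSeries.coeff n) h
  rw [homE2_pi, PowerSeries.coeff_map, map_zero, Polynomial.coe_evalRingHom,
    ← Polynomial.coeff_zero_eq_eval_zero] at h1
  have h2 := Polynomial.divX_mul_X_add (PowerSeries.coeff n F)
  rw [h1, map_zero, add_zero] at h2
  rw [mul_comm, h2]

/-- the substitution of a nonzero element vanishing at `Y = 0` is injective -/
theorem homE2_sub_injective (f : Pk k) (hf : f ≠ 0) (h0 : homE2_pi k f = 0) :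
    Function.Injective (homE2_sub k f) := by
  rw [injective_iff_map_eq_zero]
  have hpi : (homE2_pi k).comp (homE2_sub k f) = homE2_pi k := by
    apply homE2_Pk_ext
    · rw [RingHom.comp_apply, homE2_sub_X]
      simp [homE2_pi]
    · simp [homE2_pi]
    · intro c
      rw [RingHom.comp_apply, homE2_sub_CC]
    · rw [RingHom.comp_apply, homE2_sub_CX, h0]
      simp [homE2_pi]
  have step : ∀ F : Pk k, homE2_sub k f F = 0 →
      ∃ F' : Pk k, F = PowerSeries.C Polynomial.X * F' ∧ homE2_sub k f F' = 0 := by
    intro F hF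
    have h1 : homE2_pi k F = 0 := by
      rw [← hpi, RingHom.comp_apply, hF, map_zero]
    obtain ⟨F', hF'⟩ := homE2_dvd F h1
    refine ⟨F', hF', ?_⟩
    rw [hF', map_mul, homE2_sub_CX] at hF
    exact (mul_eq_zero.mp hF).resolve_left hf
  have stepn : ∀ n : ℕ, ∀ F : Pk k, homE2_sub k f F = 0 →
      ∃ F' : Pk k, F = PowerSeries.C (Polynomial.X ^ n) * F' := by
    intro n
    induction n with
    | zero => intro F _; exact ⟨F, by simp⟩
    | succ n ih =>
      intro F hF
      obtain ⟨F', h1, h2⟩ := step F hF
      obtain ⟨F'', h3⟩ := ih F' h2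
      refine ⟨F'', ?_⟩
      rw [h1, h3, pow_succ', map_mul, mul_assoc]
  intro F hF
  apply PowerSeries.ext
  intro m
  rw [map_zero]
  by_contra hne
  obtain ⟨F', hF'⟩ := stepn ((PowerSeries.coeff m F).natDegree + 1) F hF
  have h1 : Polynomial.X ^ ((PowerSeries.coeff m F).natDegree + 1) ∣ PowerSeries.coeff m F := by
    refine ⟨PowerSeries.coeff m F', ?_⟩
    conv_lhs => rw [hF']
    rw [PowerSeries.coeff_C_mul]
  have h2 := Polynomial.natDegree_le_of_dvd h1 hne
  rw [Polynomial.natDegree_X_pow] at h2
  omega

/-- the substitution `w ↦ t^a (1 + Y t^2)^{-1}` is injective -/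
theorem homE2_sub_v_injective (a : ℕ) : Function.Injective (homE2_sub k (homE2_v k a)) := by
  -- shift
  have h1 : homE2_sub k (homE2_v k a) =
      (homE2_sub k (homE2_v k a - PowerSeries.X ^ a)).comp
        (homE2_sub k (PowerSeries.C Polynomial.X + PowerSeries.X ^ a)) := by
    apply homE2_Pk_ext
    · exact homE2_sub_X _
    · rw [RingHom.comp_apply, homE2_sub_X, homE2_sub_X]
    · intro c
      rw [RingHom.comp_apply, homE2_sub_CC, homE2_sub_CC, homE2_sub_CC]
    · rw [RingHom.comp_apply, homE2_sub_CX, homE2_sub_CX, map_add, map_pow, homE2_sub_X,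
        homE2_sub_CX]
      ring
  have h2 : (homE2_sub k (PowerSeries.C Polynomial.X - PowerSeries.X ^ a)).comp
      (homE2_sub k (PowerSeries.C Polynomial.X + PowerSeries.X ^ a)) = RingHom.id (Pk k) := by
    apply homE2_Pk_ext
    · rw [RingHom.comp_apply, homE2_sub_X, homE2_sub_X]
    · rfl
    · intro c
      rw [RingHom.comp_apply, homE2_sub_CC, homE2_sub_CC]
      rfl
    · rw [RingHom.comp_apply, homE2_sub_CX, map_add, map_pow, homE2_sub_X, homE2_sub_CX,
        sub_add_cancel]
      rfl
  have h3 : Function.Injective (homE2_sub k (PowerSeries.C Polynomial.X + PowerSeries.X ^ a)) := by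
    apply Function.LeftInverse.injective
      (g := homE2_sub k (PowerSeries.C Polynomial.X - PowerSeries.X ^ a))
    intro F
    exact congrArg (fun G : Pk k →+* Pk k => G F) h2
  rw [h1, RingHom.coe_comp]
  apply Function.Injective.comp _ h3
  apply homE2_sub_injective
  · intro h
    rw [sub_eq_zero] at h
    have h4 := homE2_v_mul (k := k) a
    rw [h, mul_add, mul_one, add_eq_left] at h4
    have h5 : (PowerSeries.C Polynomial.X : Pk k) ≠ 0 := by
      intro h
      exact Polynomial.X_ne_zero (PowerSeries.C_injective (h.trans (map_zero _).symm))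
    have h6 : (PowerSeries.X : Pk k) ≠ 0 := PowerSeries.X_ne_zero
    exact mul_ne_zero (pow_ne_zero _ h6) (mul_ne_zero h5 (pow_ne_zero _ h6)) h4
  · rw [map_sub, homE2_pi_v, map_pow]
    simp [homE2_pi]

end

theorem homE2_lm_algebraMap {k L : Type} [CommRing k] [CommRing L] (ι : k →+* L)
    (F : PowerSeries k) : lm ι (algebraMap (PowerSeries k) (LaurentSeries k) F) =
      algebraMap (PowerSeries L) (LaurentSeries L) (PowerSeries.map ι F) := by
  rw [lm, lK_algebraMap, RingHom.comp_apply]

theorem homE2_c2_algebraMap {k : Type} [Field k] (F : PowerSeries k) :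
    c2 k (algebraMap (PowerSeries k) (LaurentSeries k) F) =
      algebraMap (Pk k) (R2 k) (PowerSeries.map Polynomial.C F) := by
  rw [c2, lK_algebraMap, RingHom.comp_apply]

theorem exists_e2 {k L : Type} [Field k] [Field L] (ι : k →+* L) (y : L)
    (hy : Function.Injective (Polynomial.eval₂RingHom ι y)) (a : ℕ) (ha : 0 < a) :
    ∃ e : R2 k →+* LaurentSeries L, Function.Injective e ∧ e.comp (c2 k) = lm ι ∧
      e (w2 k) * (1 + HahnSeries.C y * HahnSeries.single 1 1 ^ 2) = HahnSeries.single 1 1 ^ a ∧
      ∀ δ : L →+* L, δ.comp ι = ι → δ y = y → (lm δ).comp e = e := by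
  classical
  -- the map on power series
  let E : Pk k →+* PowerSeries L :=
    (PowerSeries.map (Polynomial.eval₂RingHom ι y)).comp (homE2_sub k (homE2_v k a))
  have hEX : E PowerSeries.X = PowerSeries.X := by
    simp only [E]
    rw [RingHom.comp_apply, homE2_sub_X, PowerSeries.map_X]
  have hEC : ∀ c : k, E (PowerSeries.C (Polynomial.C c)) = PowerSeries.C (ι c) := by
    intro c
    simp only [E]
    rw [RingHom.comp_apply, homE2_sub_CC, PowerSeries.map_C]
    simp
  have hEw : E (PowerSeries.C Polynomial.X) * (1 + PowerSeries.C y * PowerSeries.X ^ 2) =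
      PowerSeries.X ^ a := by
    have h := congrArg (PowerSeries.map (Polynomial.eval₂RingHom ι y))
      (homE2_v_mul (k := k) a)
    simp only [E]
    rw [RingHom.comp_apply, homE2_sub_CX]
    simpa using h
  have hE : Function.Injective E := by
    have h1 : Function.Injective (PowerSeries.map (Polynomial.eval₂RingHom ι y)) := by
      rw [injective_iff_map_eq_zero]
      intro F hF
      apply PowerSeries.ext
      intro n
      apply hy
      have h2 := congrArg (PowerSeries.coeff n) hF
      rw [PowerSeries.coeff_map] at h2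
      rw [h2]
      simp
    exact h1.comp (homE2_sub_v_injective a)
  let ψ : Pk k →+* LaurentSeries L := (algebraMap (PowerSeries L) (LaurentSeries L)).comp E
  have hψ : Function.Injective ψ :=
    (HahnSeries.ofPowerSeries_injective (Γ := ℤ) (R := L)).comp hE
  have hunit : IsUnit (ψ (PowerSeries.X * PowerSeries.C Polynomial.X)) := by
    rw [isUnit_iff_ne_zero]
    intro h
    exact XCX_ne_zero k (hψ (h.trans (map_zero _).symm))
  let e : R2 k →+* LaurentSeries L :=
    IsLocalization.Away.lift (PowerSeries.X * PowerSeries.C Polynomial.X : Pk k) (g := ψ) hunit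
  have he : ∀ F : Pk k, e (algebraMap (Pk k) (R2 k) F) = ψ F := fun F =>
    IsLocalization.Away.lift_eq _ _ _
  refine ⟨e, ?_, ?_, ?_, ?_⟩
  · rw [injective_iff_map_eq_zero]
    intro x hx
    obtain ⟨⟨F, s⟩, hs⟩ := IsLocalization.surj
      (Submonoid.powers (PowerSeries.X * PowerSeries.C Polynomial.X : Pk k)) x
    dsimp only at hs
    have h1 := congrArg e hs
    rw [map_mul, hx, zero_mul, he] at h1
    have h2 : F = 0 := hψ (h1.symm.trans (map_zero _).symm)
    rw [h2, map_zero] at hs
    exact (IsUnit.mul_left_eq_zero (IsLocalization.map_units (R2 k) s)).mp hs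
  · apply IsLocalization.ringHom_ext (Submonoid.powers (PowerSeries.X : PowerSeries k))
    ext1 F
    rw [RingHom.comp_apply, RingHom.comp_apply, RingHom.comp_apply, homE2_c2_algebraMap,
      homE2_lm_algebraMap, he]
    simp only [ψ]
    rw [RingHom.comp_apply]
    congr 1
    have : E.comp (PowerSeries.map Polynomial.C) = PowerSeries.map ι := by
      apply homE2_hom_ext
      · rw [RingHom.comp_apply, PowerSeries.map_X, hEX]
      · rw [PowerSeries.map_X]
      · intro c
        rw [RingHom.comp_apply, PowerSeries.map_C, hEC, PowerSeries.map_C]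
    exact congrArg (fun G : PowerSeries k →+* PowerSeries L => G F) this
  · rw [w2, he]
    simp only [ψ]
    rw [RingHom.comp_apply]
    have h := congrArg (algebraMap (PowerSeries L) (LaurentSeries L)) hEw
    rw [map_mul, map_add, map_one, map_mul, map_pow, map_pow] at h
    have h1 : algebraMap (PowerSeries L) (LaurentSeries L) (PowerSeries.C y) = HahnSeries.C y :=
      HahnSeries.ofPowerSeries_C y
    have h2 : algebraMap (PowerSeries L) (LaurentSeries L) PowerSeries.X =
        HahnSeries.single 1 1 := HahnSeries.ofPowerSeries_X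
    rw [h1, h2] at h
    exact h
  · intro δ hδ hδy
    apply IsLocalization.ringHom_ext
      (Submonoid.powers (PowerSeries.X * PowerSeries.C Polynomial.X : Pk k))
    ext1 F
    rw [RingHom.comp_apply, RingHom.comp_apply, RingHom.comp_apply, he]
    simp only [ψ]
    rw [RingHom.comp_apply, homE2_lm_algebraMap]
    congr 1
    have : (PowerSeries.map δ).comp E = E := by
      apply homE2_Pk_ext
      · rw [RingHom.comp_apply, hEX, PowerSeries.map_X]
      · exact hEX
      · intro c
        rw [RingHom.comp_apply, hEC, PowerSeries.map_C]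
        congr 1
        exact congrArg (fun G : k →+* L => G c) hδ
      · have h3 : (PowerSeries.map δ).comp (PowerSeries.map (Polynomial.eval₂RingHom ι y)) =
            PowerSeries.map (Polynomial.eval₂RingHom ι y) := by
          rw [← PowerSeries.map_comp]
          congr 1
          apply Polynomial.ringHom_ext
          · intro c
            simpa using congrArg (fun G : k →+* L => G c) hδ
          · simpa using hδy
        simp only [E]
        rw [← RingHom.comp_assoc, h3]
    exact congrArg (fun G : Pk k →+* PowerSeries L => G F) this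

end Pool.Agent.Helper54.FP
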